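import Mathlib

namespace Pool.Agent.Hhelper79.CycleLabel

open SimpleGraph Finset

/-- distance in the cycle of length `i` between the vertices `p` and `q` (both `< i`) -/
def cd (i p q : ℕ) : ℕ := min ((p - q) + (q - p)) (i - ((p - q) + (q - p)))

theorem cd_comm (i p q : ℕ) : cd i p q = cd i q p := by
  unfold cd; rw [Nat.add_comm (p - q)]

theorem dist_le_of_add (n : ℕ) (u : Fin (n+2)) (k : ℕ) :
    (cycleGraph (n+2)).dist u (u + Fin.ofNat (n+2) k) ≤ k := by
  induction k with
  | zero => simp
  | succ k ih =>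
    have hconn : (cycleGraph (n+2)).Connected := cycleGraph_connected
    have h1 := hconn.dist_triangle (u := u) (v := u + Fin.ofNat (n+2) k)
      (w := u + Fin.ofNat (n+2) (k+1))
    have hadj : (cycleGraph (n+2)).Adj (u + Fin.ofNat (n+2) k) (u + Fin.ofNat (n+2) (k+1)) := by
      rw [cycleGraph_adj]; right
      have : Fin.ofNat (n+2) (k+1) = Fin.ofNat (n+2) k + 1 := by
        apply Fin.ext
        simp [Fin.ofNat, Fin.val_add, Nat.add_mod]
      rw [this, add_sub_add_left_eq_sub, add_sub_cancel_left]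
    have h2 := SimpleGraph.dist_eq_one_iff_adj.mpr hadj
    omega

theorem val_sub_eq (i : ℕ) (u v : Fin (i+2)) :
    (v - u).val = if u ≤ v then v.val - u.val else (i + 2) + v.val - u.val := by
  rw [Fin.sub_def]
  simp only
  split_ifs with h
  · have h' : u.val ≤ v.val := h
    have : i + 2 - u.val + v.val = (v.val - u.val) + (i+2) := by omega
    rw [this, Nat.add_mod_right, Nat.mod_eq_of_lt (by omega)]
  · have h' : v.val < u.val := not_le.mp h
    rw [Nat.mod_eq_of_lt (by omega)]; omega

theorem dist_le_val (i : ℕ) (u v : Fin (i+2)) : (cycleGraph (i+2)).dist u v ≤ (v - u).val := by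
  have := dist_le_of_add i u (v - u).val
  have h2 : u + Fin.ofNat (i+2) (v - u).val = v := by
    have : Fin.ofNat (i+2) (v - u).val = v - u := by
      apply Fin.ext; simp [Fin.ofNat, Nat.mod_eq_of_lt]
    rw [this, add_sub_cancel]
  rwa [h2] at this

theorem cd_le_walk (i : ℕ) (u : Fin (i+2)) {v w : Fin (i+2)} (p : (cycleGraph (i+2)).Walk v w) :
    cd (i+2) u.val w.val ≤ cd (i+2) u.val v.val + p.length := by
  induction p with
  | nil => simp
  | @cons a b c hab p ih =>
    rw [Walk.length_cons]
    have h1 : cd (i+2) u.val b.val ≤ cd (i+2) u.val a.val + 1 := by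
      rw [cycleGraph_adj'] at hab
      rw [val_sub_eq, val_sub_eq] at hab
      have ha := a.isLt
      have hb := b.isLt
      have hu := u.isLt
      unfold cd
      simp only [Fin.le_def] at hab
      rcases hab with hab | hab <;> split_ifs at hab <;> omega
    omega

theorem cycle_dist (i : ℕ) (hi : 2 ≤ i) (u v : Fin i) :
    (cycleGraph i).dist u v = cd i u.val v.val := by
  obtain ⟨n, rfl⟩ : ∃ n, i = n + 2 := ⟨i - 2, by omega⟩
  apply le_antisymm
  · have h1 := dist_le_val n u v
    have h2 := dist_le_val n v u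
    rw [SimpleGraph.dist_comm] at h2
    rw [val_sub_eq] at h1 h2
    have hu := u.isLt
    have hv := v.isLt
    simp only [Fin.le_def] at h1 h2
    unfold cd
    split_ifs at h1 h2 <;> omega
  · have hconn : (cycleGraph (n+2)).Connected := cycleGraph_connected
    obtain ⟨p, hp⟩ := hconn.exists_walk_length_eq_dist u v
    have := cd_le_walk n u p
    rw [hp] at this
    have h0 : cd (n+2) u.val u.val = 0 := by unfold cd; simp
    omega

/-- `Good I M`: the cycles with lengths in `I` have a consistent labeling with at most `M`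
labels. -/
def Good (I : Set ℕ) (M : ℕ) : Prop :=
  ∃ (L : Type) (S : Finset L) (φ : ℕ → ℕ → L), S.card ≤ M ∧ (∀ i ∈ I, ∀ p < i, φ i p ∈ S) ∧
   ∀ i ∈ I, ∀ j ∈ I, ∀ p < i, ∀ q < i, ∀ p' < j, ∀ q' < j,
    φ i p = φ j p' → φ i q = φ j q' → cd i p q = cd j p' q'

theorem Good.mono {I I' : Set ℕ} {M M' : ℕ} (h : Good I M) (hI : I' ⊆ I) (hM : M ≤ M') :
    Good I' M' := by
  obtain ⟨L, S, φ, h1, h2, h3⟩ := h
  exact ⟨L, S, φ, h1.trans hM, fun i hi => h2 i (hI hi),
    fun i hi j hj => h3 i (hI hi) j (hI hj)⟩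

theorem Good.union {I I' : Set ℕ} {M M' : ℕ} (h : Good I M) (h' : Good I' M') :
    Good (I ∪ I') (M + M') := by
  classical
  obtain ⟨L, S, φ, h1, h2, h3⟩ := h
  obtain ⟨L', S', φ', h1', h2', h3'⟩ := h'
  refine ⟨L ⊕ L', S.disjSum S', fun i p => if i ∈ I then Sum.inl (φ i p) else Sum.inr (φ' i p),
    ?_, ?_, ?_⟩
  · rw [Finset.card_disjSum]; omega
  · intro i hi p hp
    by_cases hiI : i ∈ I
    · simp only [hiI, if_true]; rw [Finset.inl_mem_disjSum]; exact h2 i hiI p hp
    · simp only [hiI, if_false]; rw [Finset.inr_mem_disjSum]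
      exact h2' i (hi.resolve_left hiI) p hp
  · intro i hi j hj p hp q hq p' hp' q' hq' e1 e2
    by_cases hiI : i ∈ I <;> by_cases hjI : j ∈ I
    · simp only [hiI, hjI, if_true, Sum.inl.injEq] at e1 e2
      exact h3 i hiI j hjI p hp q hq p' hp' q' hq' e1 e2
    · simp [hiI, hjI] at e1
    · simp [hiI, hjI] at e1
    · simp only [hiI, hjI, if_false, Sum.inr.injEq] at e1 e2
      exact h3' i (hi.resolve_left hiI) j (hj.resolve_left hjI) p hp q hq p' hp' q' hq' e1 e2

/-- the trivial labeling -/
theorem good_trivial (n : ℕ) : Good {i | i < n} (n * n) := by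
  refine ⟨ℕ × ℕ, Finset.range n ×ˢ Finset.range n, fun i p => (i, p), ?_, ?_, ?_⟩
  · simp
  · intro i hi p hp
    simp only [Set.mem_ofPred_eq] at hi
    simp only [Finset.mem_product, Finset.mem_range]
    exact ⟨hi, hp.trans hi⟩
  · intro i hi j hj p hp q hq p' hp' q' hq' e1 e2
    simp only [Prod.mk.injEq] at e1 e2
    obtain ⟨rfl, rfl⟩ := e1
    obtain ⟨_, rfl⟩ := e2
    rfl

/-- the two chain scheme -/
theorem good_two_chain (U : Finset ℕ) (N k : ℕ) (hU : ∀ i ∈ U, i ≤ 2 * N) (hk : U.card ≤ k * k) :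
    Good (U : Set ℕ) (2 * k * (N + 1)) := by
  classical
  -- index function
  obtain ⟨e, he⟩ : ∃ e : ℕ → ℕ, (∀ i ∈ U, e i < k * k) ∧ ∀ i ∈ U, ∀ j ∈ U, e i = e j → i = j := by
    refine ⟨fun i => if h : i ∈ U then (U.equivFin ⟨i, h⟩).val else 0, ?_, ?_⟩
    · intro i hi
      simp only [hi, dif_pos]
      exact lt_of_lt_of_le (Fin.isLt _) hk
    · intro i hi j hj hij
      simp only [hi, hj, dif_pos] at hij
      have := U.equivFin.injective (Fin.ext hij)
      simpa using this
  obtain ⟨he1, he2⟩ := he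
  refine ⟨Bool × ℕ × ℕ, Finset.univ ×ˢ (Finset.range k ×ˢ Finset.range (N+1)),
    fun i p => if p < (i+1)/2 then (false, e i / k, p) else (true, e i % k, p - (i+1)/2),
    ?_, ?_, ?_⟩
  · simp only [Finset.card_product, Finset.card_univ, Fintype.card_bool, Finset.card_range]
    rw [Nat.mul_assoc]
  · intro i hi p hp
    have hi' : i ∈ U := hi
    have h1 := hU i hi'
    have h2 := he1 i hi'
    have hk0 : 0 < k := by
      rcases Nat.eq_zero_or_pos k with h | h
      · subst h; simp at h2
      · exact h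
    simp only
    split_ifs with hp1
    · simp only [Finset.mem_product, Finset.mem_univ, Finset.mem_range, true_and]
      exact ⟨Nat.div_lt_of_lt_mul h2, by omega⟩
    · simp only [Finset.mem_product, Finset.mem_univ, Finset.mem_range, true_and]
      exact ⟨Nat.mod_lt _ hk0, by omega⟩
  · intro i hi j hj p hp q hq p' hp' q' hq' e1 e2
    have key : e i / k = e j / k → e i % k = e j % k → i = j := by
      intro h1 h2
      apply he2 i hi j hj
      rw [← Nat.div_add_mod (e i) k, ← Nat.div_add_mod (e j) k, h1, h2]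
    simp only at e1 e2
    unfold cd
    split_ifs at e1 e2 <;> simp only [Prod.mk.injEq, true_and, false_and, reduceCtorEq] at e1 e2
    · obtain ⟨_, rfl⟩ := e1
      obtain ⟨_, rfl⟩ := e2
      omega
    · obtain rfl := key e1.1 e2.1
      have := e1.2
      have := e2.2
      have : p = p' := by omega
      have : q = q' := by omega
      subst p; subst q; rfl
    · obtain rfl := key e2.1 e1.1
      have := e1.2
      have := e2.2
      have : p = p' := by omega
      have : q = q' := by omega
      subst p; subst q; rfl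
    · have := e1.2
      have := e2.2
      omega

end Pool.Agent.Hhelper79.CycleLabel
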