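import Mathlib
import Pool.Agent.Hhelper79.CycleLabelBasic

namespace Pool.Agent.Hhelper79.CycleLabel

open Finset

/-! ## digits -/

/-- the `m`-th digit of `D` in the mixed radix system with lowest radix `q0`, other radices `b` -/
def dig (q0 b D m : ℕ) : ℕ := (D / q0) / b ^ m % b

theorem mod_pow_eq_of_digits {b x y : ℕ} (k : ℕ)
    (hd : ∀ m < k, x / b ^ m % b = y / b ^ m % b) : x % b ^ k = y % b ^ k := by
  induction k with
  | zero => simp [Nat.mod_one]
  | succ k ih =>
    rw [Nat.mod_pow_succ, Nat.mod_pow_succ, ih (fun m hm => hd m (by omega)), hd k (by omega)]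

theorem mod_eq_of_dig {q0 b D D' : ℕ} (k : ℕ) (h0 : D % q0 = D' % q0)
    (hd : ∀ m < k, dig q0 b D m = dig q0 b D' m) : D % (q0 * b ^ k) = D' % (q0 * b ^ k) := by
  rw [Nat.mod_mul, Nat.mod_mul, h0, mod_pow_eq_of_digits k hd]

theorem div_eq_of_dig {q0 b D D' : ℕ} (hb : 0 < b) (k l : ℕ) (hD : D < q0 * b ^ (k + l))
    (hD' : D' < q0 * b ^ (k + l))
    (hd : ∀ m < l, dig q0 b D (k + m) = dig q0 b D' (k + m)) :
    D / (q0 * b ^ k) = D' / (q0 * b ^ k) := by
  rw [← Nat.div_div_eq_div_mul, ← Nat.div_div_eq_div_mul]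
  have h1 : D / q0 / b ^ k < b ^ l := by
    rw [Nat.div_lt_iff_lt_mul (by positivity)]
    apply Nat.div_lt_of_lt_mul
    rw [← pow_add, Nat.add_comm l k]; exact hD
  have h1' : D' / q0 / b ^ k < b ^ l := by
    rw [Nat.div_lt_iff_lt_mul (by positivity)]
    apply Nat.div_lt_of_lt_mul
    rw [← pow_add, Nat.add_comm l k]; exact hD'
  have h2 : (D / q0 / b ^ k) % b ^ l = (D' / q0 / b ^ k) % b ^ l := by
    apply mod_pow_eq_of_digits
    intro m hm
    have := hd m hm
    unfold dig at this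
    rw [Nat.div_div_eq_div_mul, ← pow_add, Nat.div_div_eq_div_mul (D' / q0), ← pow_add]
    exact this
  rwa [Nat.mod_eq_of_lt h1, Nat.mod_eq_of_lt h1'] at h2

/-! ## letters -/

section Scheme

variable (h p q0 : ℕ)

/-- tag of the letter at position `x` -/
def tag (D x : ℕ) : ℕ :=
  if x % (2 * h) = 0 then h * q0 + D % q0 else dig q0 (h * q0 * p) D (x % (2 * h) - 1) / p

/-- second component of the letter at position `x` -/
def sig (D x : ℕ) : ZMod p :=
  if x % (2 * h) = 0 then - ∑ m ∈ range (2 * h - 1), ((dig q0 (h * q0 * p) D m : ℕ) : ZMod p)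
  else ((dig q0 (h * q0 * p) D (x % (2 * h) - 1) : ℕ) : ZMod p)

/-- window at position `J` -/
def win (κ D J : ℕ) : Fin h → ℕ × ZMod p := fun m =>
  (tag h p q0 D (J + m.val), sig h p q0 D (J + m.val) + (κ : ZMod p) * ((J % (2 * h) : ℕ) : ZMod p))

/-- local offsets -/
def loc (ℓ D y : ℕ) : ℕ :=
  ℓ + (if y % (2 * h) = 0 then D % (q0 * (h * q0 * p) ^ h) else 0) +
    (if y % (2 * h) = h then (D - D % (q0 * (h * q0 * p) ^ h)) else 0)

/-- origin number `x` -/
def org (ℓ D x : ℕ) : ℕ := ∑ y ∈ range x, loc h p q0 ℓ D y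

variable {h p q0}

theorem tag_mod (D x : ℕ) : tag h p q0 D (x % (2 * h)) = tag h p q0 D x := by
  unfold tag; rw [Nat.mod_mod]

theorem sig_mod (D x : ℕ) : sig h p q0 D (x % (2 * h)) = sig h p q0 D x := by
  unfold sig; rw [Nat.mod_mod]

theorem tag_congr (D : ℕ) {x y : ℕ} (hxy : x % (2 * h) = y % (2 * h)) :
    tag h p q0 D x = tag h p q0 D y := by
  unfold tag; rw [hxy]

theorem sig_congr (D : ℕ) {x y : ℕ} (hxy : x % (2 * h) = y % (2 * h)) :
    sig h p q0 D x = sig h p q0 D y := by
  unfold sig; rw [hxy]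

theorem win_congr (κ D : ℕ) {x y : ℕ} (hxy : x % (2 * h) = y % (2 * h)) :
    win h p q0 κ D x = win h p q0 κ D y := by
  unfold win; funext m
  have : (x + m.val) % (2 * h) = (y + m.val) % (2 * h) := by rw [Nat.add_mod, hxy, ← Nat.add_mod]
  rw [tag_congr D this, sig_congr D this, hxy]

theorem loc_congr (ℓ D : ℕ) {x y : ℕ} (hxy : x % (2 * h) = y % (2 * h)) :
    loc h p q0 ℓ D x = loc h p q0 ℓ D y := by
  unfold loc; rw [hxy]

theorem tag_marker (hp : 0 < p) (hh : 0 < h) (hq : 0 < q0) (D x : ℕ) :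
    h * q0 ≤ tag h p q0 D x ↔ x % (2 * h) = 0 := by
  unfold tag
  split_ifs with hx
  · simp [hx]
  · simp only [hx, iff_false, not_le]
    apply Nat.div_lt_of_lt_mul
    rw [Nat.mul_comm p]
    exact Nat.mod_lt _ (by positivity)

theorem tag_lt (hp : 0 < p) (hh : 0 < h) (hq : 0 < q0) (D x : ℕ) :
    tag h p q0 D x < (h + 1) * q0 := by
  unfold tag
  split_ifs with hx
  · have := Nat.mod_lt D hq
    rw [Nat.add_mul]; omega
  · have : dig q0 (h * q0 * p) D (x % (2 * h) - 1) / p < h * q0 := by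
      apply Nat.div_lt_of_lt_mul
      rw [Nat.mul_comm p]
      exact Nat.mod_lt _ (by positivity)
    rw [Nat.add_mul]; omega

theorem sum_sig (hh : 0 < h) (D : ℕ) : ∑ x ∈ range (2 * h), sig h p q0 D x = 0 := by
  obtain ⟨t, ht⟩ : ∃ t, 2 * h = t + 1 := ⟨2 * h - 1, by omega⟩
  have h0 : sig h p q0 D 0 =
      - ∑ m ∈ range t, ((dig q0 (h * q0 * p) D m : ℕ) : ZMod p) := by
    unfold sig; simp [ht]
  rw [ht, Finset.sum_range_succ', h0]
  have : ∀ m ∈ range t, sig h p q0 D (m + 1) = ((dig q0 (h * q0 * p) D m : ℕ) : ZMod p) := by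
    intro m hm
    rw [Finset.mem_range] at hm
    unfold sig
    have : (m + 1) % (2 * h) = m + 1 := Nat.mod_eq_of_lt (by omega)
    rw [this]; simp
  rw [Finset.sum_congr rfl this]; ring

theorem dig_eq_of_letter {D D' x : ℕ} (hx : x % (2 * h) ≠ 0)
    (ht : tag h p q0 D x = tag h p q0 D' x) (hs : sig h p q0 D x = sig h p q0 D' x) :
    dig q0 (h * q0 * p) D (x % (2 * h) - 1) = dig q0 (h * q0 * p) D' (x % (2 * h) - 1) := by
  unfold tag at ht
  unfold sig at hs
  simp only [hx, if_false] at ht hs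
  rw [ZMod.natCast_eq_natCast_iff] at hs
  unfold Nat.ModEq at hs
  rw [← Nat.div_add_mod (dig q0 (h * q0 * p) D (x % (2 * h) - 1)) p, ht, hs, Nat.div_add_mod]

/-! ## origins -/

theorem org_add (ℓ D x r : ℕ) :
    org h p q0 ℓ D (x + r) = org h p q0 ℓ D x + ∑ m ∈ range r, loc h p q0 ℓ D (x + m) := by
  unfold org; rw [Finset.sum_range_add]

theorem org_succ (ℓ D x : ℕ) :
    org h p q0 ℓ D (x + 1) = org h p q0 ℓ D x + loc h p q0 ℓ D x := by
  unfold org; rw [Finset.sum_range_succ]

theorem org_formula (hh : 0 < h) (ℓ D x : ℕ) (hx : x ≤ 2 * h) :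
    org h p q0 ℓ D x = x * ℓ + (if 1 ≤ x then D % (q0 * (h * q0 * p) ^ h) else 0) +
      (if h + 1 ≤ x then (D - D % (q0 * (h * q0 * p) ^ h)) else 0) := by
  induction x with
  | zero => simp [org]
  | succ x ih =>
    rw [org_succ, ih (by omega)]
    unfold loc
    have hx' : x % (2 * h) = x := Nat.mod_eq_of_lt (by omega)
    rw [hx']
    generalize D % (q0 * (h * q0 * p) ^ h) = A
    generalize D - A = B
    rw [Nat.add_mul, Nat.one_mul]
    split_ifs <;> omega

theorem org_top (hh : 0 < h) (ℓ D : ℕ) : org h p q0 ℓ D (2 * h) = 2 * h * ℓ + D := by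
  rw [org_formula hh ℓ D (2 * h) le_rfl]
  have h1 : 1 ≤ 2 * h := by omega
  have h2 : h + 1 ≤ 2 * h := by omega
  have h3 : D % (q0 * (h * q0 * p) ^ h) ≤ D := Nat.mod_le _ _
  simp only [h1, h2, if_true]
  omega

theorem org_bounds (hh : 0 < h) (ℓ D x : ℕ) (hx : x ≤ 2 * h) :
    x * ℓ ≤ org h p q0 ℓ D x ∧ org h p q0 ℓ D x ≤ x * ℓ + D := by
  rw [org_formula hh ℓ D x hx]
  have h3 : D % (q0 * (h * q0 * p) ^ h) ≤ D := Nat.mod_le _ _
  constructor
  · omega
  · split_ifs <;> omega

theorem org_period (hh : 0 < h) (ℓ D x : ℕ) :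
    org h p q0 ℓ D (x + 2 * h) = org h p q0 ℓ D x + (2 * h * ℓ + D) := by
  induction x with
  | zero => rw [Nat.zero_add, org_top hh]; simp [org]
  | succ x ih =>
    have : x + 1 + 2 * h = (x + 2 * h) + 1 := by ring
    rw [this, org_succ, ih, org_succ]
    have : loc h p q0 ℓ D (x + 2 * h) = loc h p q0 ℓ D x := loc_congr ℓ D (by simp)
    rw [this]; ring

/-! ## decoding -/

/-- the tags of the letters are distinct -/
def TagInj (h p q0 D : ℕ) : Prop :=
  ∀ x < 2 * h, ∀ y < 2 * h, tag h p q0 D x = tag h p q0 D y → x = y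

theorem TagInj.mod {D : ℕ} (hI : TagInj h p q0 D) (hh : 0 < h) {x y : ℕ}
    (e : tag h p q0 D x = tag h p q0 D y) : x % (2 * h) = y % (2 * h) := by
  apply hI _ (Nat.mod_lt _ (by omega)) _ (Nat.mod_lt _ (by omega))
  rw [tag_mod, tag_mod]; exact e

theorem win_tag {κ D κ' D' J J' : ℕ} (e : win h p q0 κ D J = win h p q0 κ' D' J') {m : ℕ}
    (hm : m < h) : tag h p q0 D (J + m) = tag h p q0 D' (J' + m) :=
  congrArg Prod.fst (congrFun e ⟨m, hm⟩)

theorem win_sig {κ D κ' D' J J' : ℕ} (e : win h p q0 κ D J = win h p q0 κ' D' J') {m : ℕ}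
    (hm : m < h) : sig h p q0 D (J + m) + (κ : ZMod p) * ((J % (2 * h) : ℕ) : ZMod p) =
      sig h p q0 D' (J' + m) + (κ' : ZMod p) * ((J' % (2 * h) : ℕ) : ZMod p) :=
  congrArg Prod.snd (congrFun e ⟨m, hm⟩)

theorem align (hh : 0 < h) {κ D κ' D' J J' K K' : ℕ} (hI' : TagInj h p q0 D')
    (e1 : win h p q0 κ D J = win h p q0 κ' D' J') (e2 : win h p q0 κ D K = win h p q0 κ' D' K')
    {r : ℕ} (hr : r < h) (hK : K % (2 * h) = (J + r) % (2 * h)) :
    K' % (2 * h) = (J' + r) % (2 * h) := by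
  apply hI'.mod hh
  rw [← win_tag e1 hr]
  have := win_tag e2 hh
  simp only [Nat.add_zero] at this
  rw [← this]
  exact (tag_congr D hK)

theorem marker_align (hp : 0 < p) (hh : 0 < h) (hq : 0 < q0) {D D' J J' m : ℕ}
    (hJ : J < 2 * h) (hJ' : J' < 2 * h)
    (e : tag h p q0 D (J + m) = tag h p q0 D' (J' + m)) (hm : (J + m) % (2 * h) = 0) :
    J = J' := by
  have h1 := (tag_marker hp hh hq D (J + m)).mpr hm
  rw [e, tag_marker hp hh hq] at h1
  have h2 : J + m ≡ J' + m [MOD (2 * h)] := by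
    unfold Nat.ModEq; rw [hm, h1]
  have h3 := Nat.ModEq.add_right_cancel' m h2
  unfold Nat.ModEq at h3
  rwa [Nat.mod_eq_of_lt hJ, Nat.mod_eq_of_lt hJ'] at h3

theorem natCast_ne_zero_of_lt {p : ℕ} {a : ℕ} (ha : 0 < a) (hap : a < p) :
    (a : ZMod p) ≠ 0 := by
  rw [Ne, ZMod.natCast_eq_zero_iff]
  intro hd
  have := Nat.le_of_dvd ha hd
  omega

theorem natCast_inj_of_lt {p : ℕ} {a b : ℕ} (ha : a < p) (hb : b < p)
    (hab : (a : ZMod p) = b) : a = b := by
  rw [ZMod.natCast_eq_natCast_iff] at hab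
  unfold Nat.ModEq at hab
  rwa [Nat.mod_eq_of_lt ha, Nat.mod_eq_of_lt hb] at hab

/-- the dichotomy for adjacent windows -/
theorem dichotomy (hp : 0 < p) (hh : 0 < h) (hq : 0 < q0) {κ D κ' D' J J' r : ℕ}
    (hJ : J < 2 * h) (hJ' : J' < 2 * h) (hr : r < h)
    (e1 : win h p q0 κ D J = win h p q0 κ' D' J')
    (e2 : win h p q0 κ D (J + r) = win h p q0 κ' D' (J' + r)) :
    (∀ m < h + r, tag h p q0 D (J + m) = tag h p q0 D' (J' + m)) ∧
    (J = J' ∨ ∀ m < h + r, (J + m) % (2 * h) ≠ 0 ∧ (J' + m) % (2 * h) ≠ 0) := by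
  have htags : ∀ m < h + r, tag h p q0 D (J + m) = tag h p q0 D' (J' + m) := by
    intro m hm
    by_cases hmh : m < h
    · exact win_tag e1 hmh
    · have := win_tag e2 (m := m - r) (by omega)
      have h1 : J + r + (m - r) = J + m := by omega
      have h2 : J' + r + (m - r) = J' + m := by omega
      rwa [h1, h2] at this
  refine ⟨htags, ?_⟩
  by_cases hJJ : J = J'
  · exact Or.inl hJJ
  · right
    intro m hm
    refine ⟨fun h0 => hJJ (marker_align hp hh hq hJ hJ' (htags m hm) h0), fun h0 => ?_⟩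
    exact hJJ (marker_align hp hh hq hJ' hJ (htags m hm).symm h0).symm

theorem kappa_eq (hp : p.Prime) (hp3 : 3 * h < p) (hh : 0 < h) (hq : 0 < q0)
    {κ D κ' D' J J' r : ℕ} (hκ : κ < p) (hκ' : κ' < p)
    (hJ : J < 2 * h) (hJ' : J' < 2 * h) (hr0 : 0 < r) (hr : r < h)
    (e1 : win h p q0 κ D J = win h p q0 κ' D' J')
    (e2 : win h p q0 κ D (J + r) = win h p q0 κ' D' (J' + r)) : κ = κ' := by
  have : Fact p.Prime := ⟨hp⟩
  obtain ⟨htags, hdi⟩ := dichotomy hp.pos hh hq hJ hJ' hr e1 e2
  have s1 := win_sig e1 hr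
  have s2 := win_sig e2 hh
  simp only [Nat.add_zero] at s2
  rw [Nat.mod_eq_of_lt hJ, Nat.mod_eq_of_lt hJ'] at s1
  have s3 : (κ : ZMod p) * ((((J + r) % (2 * h) : ℕ) : ZMod p) - (J : ZMod p)) =
      (κ' : ZMod p) * ((((J' + r) % (2 * h) : ℕ) : ZMod p) - (J' : ZMod p)) := by
    linear_combination s2 - s1
  -- the two differences agree and are nonzero
  have hdiff : ∀ X : ℕ, X < 2 * h → ((((X + r) % (2 * h) : ℕ) : ZMod p) - (X : ZMod p)) ≠ 0 := by
    intro X hX h0
    by_cases hw : X + r < 2 * h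
    · rw [Nat.mod_eq_of_lt hw] at h0
      push_cast at h0
      have : (r : ZMod p) = 0 := by linear_combination h0
      exact natCast_ne_zero_of_lt hr0 (by omega) this
    · have h1 : (X + r) % (2 * h) = X + r - 2 * h := by
        rw [Nat.mod_eq_sub_mod (by omega), Nat.mod_eq_of_lt (by omega)]
      rw [h1] at h0
      have h2 : X = (X + r - 2 * h) + (2 * h - r) := by omega
      have h3 : ((X : ℕ) : ZMod p) = ((X + r - 2 * h : ℕ) : ZMod p) + ((2 * h - r : ℕ) : ZMod p) := by
        rw [← Nat.cast_add, ← h2]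
      rw [h3] at h0
      have : ((2 * h - r : ℕ) : ZMod p) = 0 := by linear_combination -h0
      exact natCast_ne_zero_of_lt (by omega) (by omega) this
  have hsame : ((((J + r) % (2 * h) : ℕ) : ZMod p) - (J : ZMod p)) =
      ((((J' + r) % (2 * h) : ℕ) : ZMod p) - (J' : ZMod p)) := by
    rcases hdi with hdi | hdi
    · rw [hdi]
    · have w1 : J + r < 2 * h := by
        by_contra hc
        have := (hdi (2 * h - J) (by omega)).1
        apply this
        rw [show J + (2 * h - J) = 2 * h by omega, Nat.mod_self]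
      have w2 : J' + r < 2 * h := by
        by_contra hc
        have := (hdi (2 * h - J') (by omega)).2
        apply this
        rw [show J' + (2 * h - J') = 2 * h by omega, Nat.mod_self]
      rw [Nat.mod_eq_of_lt w1, Nat.mod_eq_of_lt w2]
      push_cast; ring
  rw [← hsame] at s3
  have := mul_right_cancel₀ (hdiff J hJ) s3
  exact natCast_inj_of_lt hκ hκ' this

theorem forward (hp : p.Prime) (hp3 : 3 * h < p) (hh : 0 < h) (hq : 0 < q0)
    {κ D κ' D' J J' r : ℕ} (hκ : κ < p) (hκ' : κ' < p)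
    (hD : D < q0 * (h * q0 * p) ^ (2 * h - 1)) (hD' : D' < q0 * (h * q0 * p) ^ (2 * h - 1))
    (hJ : J < 2 * h) (hJ' : J' < 2 * h) (hr0 : 0 < r) (hr : r < h)
    (e1 : win h p q0 κ D J = win h p q0 κ' D' J')
    (e2 : win h p q0 κ D (J + r) = win h p q0 κ' D' (J' + r)) (ℓ m : ℕ) (hm : m < r) :
    loc h p q0 ℓ D (J + m) = loc h p q0 ℓ D' (J' + m) := by
  have hκκ := kappa_eq hp hp3 hh hq hκ hκ' hJ hJ' hr0 hr e1 e2
  subst hκκ
  obtain ⟨htags, hdi⟩ := dichotomy hp.pos hh hq hJ hJ' hr e1 e2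
  have hb : 0 < h * q0 * p := by have := hp.pos; positivity
  rcases hdi with hdi | hdi
  · subst hdi
    -- all letters agree
    have hsig : ∀ m < h + r, sig h p q0 D (J + m) = sig h p q0 D' (J + m) := by
      intro m hm
      by_cases hmh : m < h
      · exact add_right_cancel (win_sig e1 hmh)
      · have := add_right_cancel (win_sig e2 (m := m - r) (by omega))
        have h1 : J + r + (m - r) = J + m := by omega
        rwa [h1] at this
    have hdig : ∀ m < h + r, (J + m) % (2 * h) ≠ 0 →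
        dig q0 (h * q0 * p) D ((J + m) % (2 * h) - 1) =
          dig q0 (h * q0 * p) D' ((J + m) % (2 * h) - 1) :=
      fun m hm h0 => dig_eq_of_letter h0 (htags m hm) (hsig m hm)
    unfold loc
    congr 1
    · congr 1
      split_ifs with h0
      · apply mod_eq_of_dig
        · have := htags m (by omega)
          unfold tag at this
          simp only [h0, if_true] at this
          omega
        · intro m' hm'
          have h1 : (J + (m + 1 + m')) % (2 * h) = m' + 1 := by
            rw [show J + (m + 1 + m') = (J + m) + (m' + 1) by ring, Nat.add_mod, h0,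
              Nat.zero_add, Nat.mod_mod, Nat.mod_eq_of_lt (by omega)]
          have := hdig (m + 1 + m') (by omega) (by omega)
          rw [h1] at this
          simpa using this
      · rfl
    · split_ifs with h0
      · have hdiv : D / (q0 * (h * q0 * p) ^ h) = D' / (q0 * (h * q0 * p) ^ h) := by
          apply div_eq_of_dig hb h (h - 1)
          · rw [show h + (h - 1) = 2 * h - 1 by omega]; exact hD
          · rw [show h + (h - 1) = 2 * h - 1 by omega]; exact hD'
          · intro m' hm'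
            have h1 : (J + (m + 1 + m')) % (2 * h) = h + m' + 1 := by
              rw [show J + (m + 1 + m') = (J + m) + (m' + 1) by ring, Nat.add_mod, h0,
                Nat.mod_eq_of_lt (show m' + 1 < 2 * h by omega), Nat.mod_eq_of_lt (by omega)]
              ring
            have := hdig (m + 1 + m') (by omega) (by omega)
            rw [h1] at this
            simpa using this
        have a1 := Nat.div_add_mod D (q0 * (h * q0 * p) ^ h)
        have a2 := Nat.div_add_mod D' (q0 * (h * q0 * p) ^ h)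
        rw [hdiv] at a1
        omega
      · rfl
  · -- no marker in sight
    unfold loc
    have n1 : ∀ X : ℕ, (X + m) % (2 * h) = h → (X + (m + h)) % (2 * h) = 0 := by
      intro X hX
      rw [← Nat.add_assoc, Nat.add_mod, hX, ← Nat.add_mod_right, Nat.mod_eq_of_lt (show h < 2 * h by omega),
        show h + h + 2 * h = 2 * h * 2 by ring, Nat.mul_mod_right]
    have c1 : (J + m) % (2 * h) ≠ 0 := (hdi m (by omega)).1
    have c2 : (J' + m) % (2 * h) ≠ 0 := (hdi m (by omega)).2
    have c3 : (J + m) % (2 * h) ≠ h := fun hc => (hdi (m + h) (by omega)).1 (n1 J hc)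
    have c4 : (J' + m) % (2 * h) ≠ h := fun hc => (hdi (m + h) (by omega)).2 (n1 J' hc)
    simp only [c1, c2, c3, c4, if_false]

theorem sum_shift {M : Type*} [AddCommGroup M] (f : ℕ → M) (t : ℕ) (hf : ∀ x, f (x + t) = f x)
    (J : ℕ) : ∑ m ∈ range t, f (J + m) = ∑ m ∈ range t, f m := by
  induction J with
  | zero => simp
  | succ J ih =>
    rw [← ih]
    have h1 := Finset.sum_range_succ (fun m => f (J + m)) t
    have h2 := Finset.sum_range_succ' (fun m => f (J + m)) t
    rw [h1] at h2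
    simp only [Nat.add_zero, hf] at h2
    have h3 : ∀ m, f (J + 1 + m) = f (J + (m + 1)) := fun m => by
      rw [show J + 1 + m = J + (m + 1) by ring]
    simp only [h3]
    exact (add_right_cancel h2).symm

theorem opposite (hp : p.Prime) (hp3 : 3 * h < p) (hh : 0 < h) (hq : 0 < q0)
    {κ D κ' D' J J' K K' : ℕ} (hκ : κ < p) (hκ' : κ' < p)
    (hD : D < q0 * (h * q0 * p) ^ (2 * h - 1)) (hD' : D' < q0 * (h * q0 * p) ^ (2 * h - 1))
    (hJ : J < 2 * h) (hJ' : J' < 2 * h) (hK : K < 2 * h) (hK' : K' < 2 * h)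
    (hJK : K % (2 * h) = (J + h) % (2 * h)) (hJK' : K' % (2 * h) = (J' + h) % (2 * h))
    (e1 : win h p q0 κ D J = win h p q0 κ' D' J')
    (e2 : win h p q0 κ D K = win h p q0 κ' D' K') :
    κ = κ' ∧ D = D' ∧ J = J' ∧ K = K' := by
  have : Fact p.Prime := ⟨hp⟩
  have hcong : ∀ {X Y : ℕ}, Y % (2 * h) = (X + h) % (2 * h) → ∀ m,
      (Y + m) % (2 * h) = (X + (h + m)) % (2 * h) := by
    intro X Y hXY m
    rw [← Nat.add_assoc, Nat.add_mod, hXY, ← Nat.add_mod]
  have htags : ∀ m < 2 * h, tag h p q0 D (J + m) = tag h p q0 D' (J' + m) := by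
    intro m hm
    by_cases hmh : m < h
    · exact win_tag e1 hmh
    · have := win_tag e2 (m := m - h) (by omega)
      rw [tag_congr D (hcong hJK (m - h)), tag_congr D' (hcong hJK' (m - h))] at this
      have h1 : J + (h + (m - h)) = J + m := by omega
      have h2 : J' + (h + (m - h)) = J' + m := by omega
      rwa [h1, h2] at this
  have hJJ : J = J' := by
    by_cases hJ0 : J = 0
    · subst hJ0
      exact marker_align hp.pos hh hq hJ hJ' (htags 0 (by omega)) (by simp)
    · exact marker_align hp.pos hh hq hJ hJ' (htags (2 * h - J) (by omega))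
        (by rw [show J + (2 * h - J) = 2 * h by omega, Nat.mod_self])
  subst hJJ
  have hKK : K = K' := by
    rw [← hJK', Nat.mod_eq_of_lt hK, Nat.mod_eq_of_lt hK'] at hJK
    exact hJK
  subst hKK
  have s1 : ∀ m < h, sig h p q0 D (J + m) + (κ : ZMod p) * (J : ZMod p) =
      sig h p q0 D' (J + m) + (κ' : ZMod p) * (J : ZMod p) := by
    intro m hm
    have := win_sig e1 hm
    rwa [Nat.mod_eq_of_lt hJ] at this
  have s2 : ∀ m < h, sig h p q0 D (J + (h + m)) + (κ : ZMod p) * (K : ZMod p) =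
      sig h p q0 D' (J + (h + m)) + (κ' : ZMod p) * (K : ZMod p) := by
    intro m hm
    have := win_sig e2 hm
    rwa [Nat.mod_eq_of_lt hK, sig_congr D (hcong hJK m), sig_congr D' (hcong hJK m)] at this
  have hS : ∀ E : ℕ, ∑ m ∈ range h, sig h p q0 E (J + m) +
      ∑ m ∈ range h, sig h p q0 E (J + (h + m)) = 0 := by
    intro E
    rw [← Finset.sum_range_add (fun m => sig h p q0 E (J + m)) h h, ← two_mul,
      sum_shift (sig h p q0 E) (2 * h) (fun x => sig_congr E (by simp)), sum_sig hh]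
  have hκκ : (κ : ZMod p) = (κ' : ZMod p) := by
    have t1 := Finset.sum_congr rfl (fun m hm => s1 m (Finset.mem_range.mp hm))
    have t2 := Finset.sum_congr rfl (fun m hm => s2 m (Finset.mem_range.mp hm))
    rw [Finset.sum_add_distrib, Finset.sum_add_distrib, Finset.sum_const, Finset.sum_const,
      Finset.card_range, nsmul_eq_mul, nsmul_eq_mul] at t1 t2
    have t3 := hS D
    have t4 := hS D'
    have t5 : (κ : ZMod p) * ((h : ZMod p) * ((J + K : ℕ) : ZMod p)) =
        (κ' : ZMod p) * ((h : ZMod p) * ((J + K : ℕ) : ZMod p)) := by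
      push_cast
      linear_combination t1 + t2 - t3 + t4
    apply mul_right_cancel₀ _ t5
    apply mul_ne_zero
    · exact natCast_ne_zero_of_lt hh (by omega)
    · have hJK2 : K = J + h ∨ J = K + h := by
        rw [Nat.mod_eq_of_lt hK] at hJK
        by_cases hc : J + h < 2 * h
        · rw [Nat.mod_eq_of_lt hc] at hJK; exact Or.inl hJK
        · rw [Nat.mod_eq_sub_mod (by omega), Nat.mod_eq_of_lt (by omega)] at hJK
          right; omega
      exact natCast_ne_zero_of_lt (by omega) (by omega)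
  have hκ2 := natCast_inj_of_lt hκ hκ' hκκ
  refine ⟨hκ2, ?_, rfl, rfl⟩
  have hsig : ∀ m < 2 * h, sig h p q0 D (J + m) = sig h p q0 D' (J + m) := by
    intro m hm
    by_cases hmh : m < h
    · have := s1 m hmh
      rw [hκκ] at this
      exact add_right_cancel this
    · have := s2 (m - h) (by omega)
      rw [hκκ, show J + (h + (m - h)) = J + m by omega] at this
      exact add_right_cancel this
  -- all letters agree
  have hall : ∀ x < 2 * h, tag h p q0 D x = tag h p q0 D' x ∧ sig h p q0 D x = sig h p q0 D' x := by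
    intro x hx
    by_cases hc : J ≤ x
    · have a := htags (x - J) (by omega)
      have b := hsig (x - J) (by omega)
      rw [show J + (x - J) = x by omega] at a b
      exact ⟨a, b⟩
    · have a := htags (x + 2 * h - J) (by omega)
      have b := hsig (x + 2 * h - J) (by omega)
      rw [show J + (x + 2 * h - J) = x + 2 * h by omega] at a b
      rw [tag_congr D (show (x + 2 * h) % (2 * h) = x % (2 * h) by simp),
        tag_congr D' (show (x + 2 * h) % (2 * h) = x % (2 * h) by simp)] at a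
      rw [sig_congr D (show (x + 2 * h) % (2 * h) = x % (2 * h) by simp),
        sig_congr D' (show (x + 2 * h) % (2 * h) = x % (2 * h) by simp)] at b
      exact ⟨a, b⟩
  have hfin := mod_eq_of_dig (q0 := q0) (b := h * q0 * p) (D := D) (D' := D') (2 * h - 1) (by
      have := (hall 0 (by omega)).1
      unfold tag at this
      simp only [Nat.zero_mod, if_true] at this
      omega) (by
      intro m hm
      have a := hall (m + 1) (by omega)
      have hx : (m + 1) % (2 * h) = m + 1 := Nat.mod_eq_of_lt (by omega)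
      have := dig_eq_of_letter (x := m + 1) (by omega) a.1 a.2
      rw [hx] at this
      simpa using this)
  rwa [Nat.mod_eq_of_lt hD, Nat.mod_eq_of_lt hD'] at hfin

end Scheme

end Pool.Agent.Hhelper79.CycleLabel
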