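import Mathlib
import Pool.Agent.Hhelper79.CycleLabelScheme

namespace Pool.Agent.Hhelper79.CycleLabel

open Finset

section Served

variable {h p q0 : ℕ}

theorem arc_bounds {t i v : ℕ} (hi : 0 < i) (hv : v < i) :
    (v * t / i) * i ≤ v * t ∧ v * t < (v * t / i + 1) * i ∧ (0 < t → v * t / i < t) := by
  refine ⟨Nat.div_mul_le_self _ _, ?_, ?_⟩
  · rw [Nat.add_mul, Nat.one_mul]
    exact Nat.lt_div_mul_add hi
  · intro ht
    apply Nat.div_lt_of_lt_mul
    exact Nat.mul_lt_mul_of_pos_right hv ht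

theorem dist_formula (hh : 0 < h) {i ℓ D u v r : ℕ} (hi : i = 2 * h * ℓ + D)
    (hu : u < i) (hv : v < i) (hr : r < h)
    (hK : (v * (2 * h) / i) % (2 * h) = (u * (2 * h) / i + r) % (2 * h)) :
    (cd i u v : ℤ) = |((v : ℤ) - org h p q0 ℓ D (v * (2 * h) / i)) -
      ((u : ℤ) - org h p q0 ℓ D (u * (2 * h) / i)) +
      ((∑ m ∈ range r, loc h p q0 ℓ D (u * (2 * h) / i + m) : ℕ) : ℤ)| := by
  have hi0 : 0 < i := by omega
  obtain ⟨a1, a2, a3⟩ := arc_bounds (t := 2 * h) hi0 hu
  obtain ⟨b1, b2, b3⟩ := arc_bounds (t := 2 * h) hi0 hv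
  have a3 := a3 (by omega)
  have b3 := b3 (by omega)
  generalize u * (2 * h) / i = J at *
  generalize v * (2 * h) / i = K at *
  rw [Nat.mod_eq_of_lt b3] at hK
  have hadd := org_add (h := h) (p := p) (q0 := q0) ℓ D J r
  by_cases hc : J + r < 2 * h
  · rw [Nat.mod_eq_of_lt hc] at hK
    subst hK
    rw [hadd]
    have e1 : 2 * (v : ℤ) - 2 * u < i := by
      have : (2 * h : ℤ) * (v - u) < h * i := by
        have b2' : (v : ℤ) * (2 * h) < (J + r + 1) * i := by exact_mod_cast b2
        have a1' : (J : ℤ) * i ≤ u * (2 * h) := by exact_mod_cast a1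
        have hr' : ((r : ℤ) + 1) * i ≤ h * i := by
          apply mul_le_mul_of_nonneg_right _ (by positivity)
          exact_mod_cast hr
        nlinarith
      have hh' : (0 : ℤ) < h := by exact_mod_cast hh
      nlinarith
    have e2 : 2 * (u : ℤ) - 2 * v < i := by
      have : (2 * h : ℤ) * (u - v) < 1 * i := by
        have a2' : (u : ℤ) * (2 * h) < (J + 1) * i := by exact_mod_cast a2
        have b1' : ((J : ℤ) + r) * i ≤ v * (2 * h) := by exact_mod_cast b1
        have : (0 : ℤ) ≤ r * i := by positivity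
        nlinarith
      have hh' : (1 : ℤ) ≤ h := by exact_mod_cast hh
      by_contra hcon
      push Not at hcon
      have : (0 : ℤ) ≤ (2 * u - 2 * v) := le_trans (by positivity) hcon
      nlinarith
    unfold cd
    push_cast
    have : (v : ℤ) - (↑(org h p q0 ℓ D J) + ∑ m ∈ range r, (loc h p q0 ℓ D (J + m) : ℤ)) -
      (↑u - ↑(org h p q0 ℓ D J)) + ∑ m ∈ range r, (loc h p q0 ℓ D (J + m) : ℤ) = v - u := by ring
    rw [this]
    rcases le_total u v with huv | huv
    · rw [abs_of_nonneg (by omega)]; omega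
    · rw [abs_of_nonpos (by omega)]; omega
  · have hK2 : J + r = K + 2 * h := by
      rw [Nat.mod_eq_sub_mod (by omega), Nat.mod_eq_of_lt (by omega)] at hK
      omega
    have hper := org_period (h := h) (p := p) (q0 := q0) hh ℓ D K
    rw [← hK2, hadd, ← hi] at hper
    have hper' : (org h p q0 ℓ D J : ℤ) + ∑ m ∈ range r, (loc h p q0 ℓ D (J + m) : ℤ) =
        org h p q0 ℓ D K + i := by exact_mod_cast hper
    have e1 : 2 * ((v : ℤ) + i - u) < i := by
      have : (2 * h : ℤ) * (v + i - u) < h * i := by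
        have b2' : (v : ℤ) * (2 * h) < (K + 1) * i := by exact_mod_cast b2
        have a1' : (J : ℤ) * i ≤ u * (2 * h) := by exact_mod_cast a1
        have hK2' : (J : ℤ) + r = K + 2 * h := by exact_mod_cast hK2
        have hr' : ((r : ℤ) + 1) * i ≤ h * i := by
          apply mul_le_mul_of_nonneg_right _ (by positivity)
          exact_mod_cast hr
        have : ((J : ℤ) + r) * i = (K + 2 * h) * i := by rw [hK2']
        nlinarith
      have hh' : (0 : ℤ) < h := by exact_mod_cast hh
      nlinarith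
    have : (v : ℤ) - org h p q0 ℓ D K - (u - org h p q0 ℓ D J) +
        ((∑ m ∈ range r, loc h p q0 ℓ D (J + m) : ℕ) : ℤ) = v + i - u := by
      push_cast
      linear_combination hper'
    rw [this, abs_of_nonneg (by omega)]
    unfold cd
    omega

/-- data of a length -/
def kap (h ℓ0 s i : ℕ) : ℕ := (i - 2 * h * ℓ0) / (2 * h * s)
def dd (h ℓ0 s i : ℕ) : ℕ := (i - 2 * h * ℓ0) % (2 * h * s)
def ell (h ℓ0 s i : ℕ) : ℕ := ℓ0 + kap h ℓ0 s i * s

/-- the set of lengths served by the scheme -/
def served (h p q0 ℓ0 s : ℕ) : Set ℕ :=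
  {i | 2 * h * ℓ0 ≤ i ∧ kap h ℓ0 s i < p ∧ TagInj h p q0 (dd h ℓ0 s i)}

theorem length_eq {ℓ0 s i : ℕ} (hi : 2 * h * ℓ0 ≤ i) :
    i = 2 * h * ell h ℓ0 s i + dd h ℓ0 s i := by
  have := Nat.div_add_mod (i - 2 * h * ℓ0) (2 * h * s)
  unfold ell kap dd
  rw [Nat.mul_add, show 2 * h * ((i - 2 * h * ℓ0) / (2 * h * s) * s) =
    2 * h * s * ((i - 2 * h * ℓ0) / (2 * h * s)) by ring]
  omega

/-- label of the vertex `v` in the cycle of length `i` -/
def lab (h p q0 ℓ0 s i v : ℕ) : (Fin h → ℕ × ZMod p) × ℤ :=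
  (win h p q0 (kap h ℓ0 s i) (dd h ℓ0 s i) (v * (2 * h) / i),
    (v : ℤ) - org h p q0 (ell h ℓ0 s i) (dd h ℓ0 s i) (v * (2 * h) / i))

theorem lab_cons (hp : p.Prime) (hp3 : 3 * h < p) (hh : 0 < h) (hq : 0 < q0) {ℓ0 s : ℕ}
    (hs : 0 < s) (hsw : 2 * h * s ≤ q0 * (h * q0 * p) ^ (2 * h - 1)) {i i' : ℕ}
    (hi : i ∈ served h p q0 ℓ0 s) (hi' : i' ∈ served h p q0 ℓ0 s) {u v u' v' : ℕ}
    (hu : u < i) (hv : v < i) (hu' : u' < i') (hv' : v' < i')
    (e1 : lab h p q0 ℓ0 s i u = lab h p q0 ℓ0 s i' u')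
    (e2 : lab h p q0 ℓ0 s i v = lab h p q0 ℓ0 s i' v') {r : ℕ} (hr : r ≤ h)
    (hK : (v * (2 * h) / i) % (2 * h) = (u * (2 * h) / i + r) % (2 * h)) :
    cd i u v = cd i' u' v' := by
  obtain ⟨hi1, hi2, hi3⟩ := hi
  obtain ⟨hi1', hi2', hi3'⟩ := hi'
  have hlen := length_eq (s := s) hi1
  have hlen' := length_eq (s := s) hi1'
  have hi0 : 0 < i := by omega
  have hi0' : 0 < i' := by omega
  have hD : dd h ℓ0 s i < q0 * (h * q0 * p) ^ (2 * h - 1) :=
    lt_of_lt_of_le (Nat.mod_lt _ (by positivity)) hsw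
  have hD' : dd h ℓ0 s i' < q0 * (h * q0 * p) ^ (2 * h - 1) :=
    lt_of_lt_of_le (Nat.mod_lt _ (by positivity)) hsw
  have hJ := (arc_bounds (t := 2 * h) hi0 hu).2.2 (by omega)
  have hKl := (arc_bounds (t := 2 * h) hi0 hv).2.2 (by omega)
  have hJ' := (arc_bounds (t := 2 * h) hi0' hu').2.2 (by omega)
  have hKl' := (arc_bounds (t := 2 * h) hi0' hv').2.2 (by omega)
  have w1 := congrArg Prod.fst e1
  have w2 := congrArg Prod.fst e2
  have z1 := congrArg Prod.snd e1
  have z2 := congrArg Prod.snd e2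
  simp only [lab] at w1 w2 z1 z2
  rcases Nat.lt_or_ge r h with hrh | hrh
  · -- near pair
    have hK' := align hh hi3' w1 w2 hrh hK
    have d1 := dist_formula (p := p) (q0 := q0) hh hlen hu hv hrh hK
    have d2 := dist_formula (p := p) (q0 := q0) hh hlen' hu' hv' hrh hK'
    have hsum : ∑ m ∈ range r, loc h p q0 (ell h ℓ0 s i) (dd h ℓ0 s i) (u * (2 * h) / i + m) =
        ∑ m ∈ range r, loc h p q0 (ell h ℓ0 s i') (dd h ℓ0 s i') (u' * (2 * h) / i' + m) := by
      rcases Nat.eq_zero_or_pos r with hr0 | hr0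
      · subst hr0; simp
      · rw [win_congr _ _ hK, win_congr _ _ hK'] at w2
        have hk := kappa_eq hp hp3 hh hq hi2 hi2' hJ hJ' hr0 hrh w1 w2
        have hell : ell h ℓ0 s i = ell h ℓ0 s i' := by unfold ell; rw [hk]
        rw [hell]
        apply Finset.sum_congr rfl
        intro m hm
        exact forward hp hp3 hh hq hi2 hi2' hD hD' hJ hJ' hr0 hrh w1 w2 _ m
          (Finset.mem_range.mp hm)
    rw [z1, z2, hsum, ← d2] at d1
    exact_mod_cast d1
  · -- opposite pair
    have hrh' : r = h := le_antisymm hr hrh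
    subst hrh'
    -- the index difference on the other side
    have hK' : (v' * (2 * r) / i') % (2 * r) = (u' * (2 * r) / i' + r) % (2 * r) := by
      generalize u * (2 * r) / i = J at *
      generalize v * (2 * r) / i = K at *
      generalize u' * (2 * r) / i' = J' at *
      generalize v' * (2 * r) / i' = K' at *
      by_contra hcon
      rw [Nat.mod_eq_of_lt hKl] at hK
      rw [Nat.mod_eq_of_lt hKl'] at hcon
      have hKJ : K = J + r ∨ J = K + r := by
        by_cases hc : J + r < 2 * r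
        · rw [Nat.mod_eq_of_lt hc] at hK; exact Or.inl hK
        · rw [Nat.mod_eq_sub_mod (by omega), Nat.mod_eq_of_lt (by omega)] at hK
          right; omega
      -- there is a representation with small difference
      have hrep : ∃ a < r, K' % (2 * r) = (J' + a) % (2 * r) ∨ J' % (2 * r) = (K' + a) % (2 * r) := by
        rcases le_total J' K' with hle | hle
        · rcases Nat.lt_or_ge (K' - J') r with hlt | hge
          · exact ⟨K' - J', hlt, Or.inl (by rw [show J' + (K' - J') = K' by omega])⟩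
          · refine ⟨J' + 2 * r - K', ?_, Or.inr ?_⟩
            · by_contra hc
              apply hcon
              rw [Nat.mod_eq_of_lt (by omega)]
              omega
            · rw [show K' + (J' + 2 * r - K') = J' + 2 * r by omega, Nat.add_mod_right]
        · rcases Nat.lt_or_ge (J' - K') r with hlt | hge
          · exact ⟨J' - K', hlt, Or.inr (by rw [show K' + (J' - K') = J' by omega])⟩
          · refine ⟨K' + 2 * r - J', ?_, Or.inl ?_⟩
            · by_contra hc
              apply hcon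
              rw [Nat.mod_eq_sub_mod (by omega), Nat.mod_eq_of_lt (by omega)]
              omega
            · rw [show J' + (K' + 2 * r - J') = K' + 2 * r by omega, Nat.add_mod_right]
      obtain ⟨a, ha, hrep⟩ := hrep
      rcases hrep with hrep | hrep
      · have := align hh hi3 w1.symm w2.symm ha hrep
        rw [Nat.mod_eq_of_lt hKl] at this
        by_cases hc : J + a < 2 * r
        · rw [Nat.mod_eq_of_lt hc] at this; omega
        · rw [Nat.mod_eq_sub_mod (by omega), Nat.mod_eq_of_lt (by omega)] at this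
          omega
      · have := align hh hi3 w2.symm w1.symm ha hrep
        rw [Nat.mod_eq_of_lt hJ] at this
        by_cases hc : K + a < 2 * r
        · rw [Nat.mod_eq_of_lt hc] at this; omega
        · rw [Nat.mod_eq_sub_mod (by omega), Nat.mod_eq_of_lt (by omega)] at this
          omega
    obtain ⟨c1, c2, c3, c4⟩ := opposite hp hp3 hh hq hi2 hi2' hD hD' hJ hJ' hKl hKl' hK hK' w1 w2
    have hell : ell r ℓ0 s i = ell r ℓ0 s i' := by unfold ell; rw [c1]
    have hii : i = i' := by rw [hlen, hlen', hell, c2]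
    subst hii
    rw [c3] at z1
    rw [c4] at z2
    have hu2 : u = u' := by omega
    have hv2 : v = v' := by omega
    rw [hu2, hv2]

theorem good_served (hp : p.Prime) (hp3 : 3 * h < p) (hh : 0 < h) (hq : 0 < q0) (ℓ0 : ℕ) {s : ℕ}
    (hs : 0 < s) (hsw : 2 * h * s ≤ q0 * (h * q0 * p) ^ (2 * h - 1)) :
    Good (served h p q0 ℓ0 s) (((h + 1) * q0 * p) ^ h * (ℓ0 + p * s + 4 * h * s)) := by
  classical
  have : NeZero p := ⟨hp.ne_zero⟩
  refine ⟨(Fin h → ℕ × ZMod p) × ℤ,
    (Fintype.piFinset (fun _ => Finset.range ((h + 1) * q0) ×ˢ Finset.univ)) ×ˢ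
      Finset.Ico (-(2 * h * s : ℤ)) (ℓ0 + p * s + 2 * h * s), fun i v => lab h p q0 ℓ0 s i v,
      ?_, ?_, ?_⟩
  · rw [Finset.card_product, Fintype.card_piFinset, Int.card_Ico]
    simp only [Finset.card_product, Finset.card_range, Finset.card_univ, ZMod.card,
      Finset.prod_const, Fintype.card_fin]
    apply Nat.mul_le_mul_left
    have : ((ℓ0 : ℤ) + p * s + 2 * h * s) - (-(2 * h * s : ℤ)) =
        ((ℓ0 + p * s + 4 * h * s : ℕ) : ℤ) := by push_cast; ring
    rw [this, Int.toNat_natCast]
  · intro i hi v hv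
    obtain ⟨hi1, hi2, hi3⟩ := hi
    have hlen := length_eq (s := s) hi1
    have hi0 : 0 < i := by omega
    rw [Finset.mem_product]
    constructor
    · rw [Fintype.mem_piFinset]
      intro m
      simp only [lab, win, Finset.mem_product, Finset.mem_range, Finset.mem_univ, and_true]
      exact tag_lt hp.pos hh hq _ _
    · simp only [lab, Finset.mem_Ico]
      have hD : dd h ℓ0 s i < 2 * h * s := Nat.mod_lt _ (by positivity)
      obtain ⟨a1, a2, a3⟩ := arc_bounds (t := 2 * h) hi0 hv
      have a3 := a3 (by omega)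
      obtain ⟨o1, o2⟩ := org_bounds (p := p) (q0 := q0) hh (ell h ℓ0 s i) (dd h ℓ0 s i)
        (v * (2 * h) / i) a3.le
      have hℓ : ell h ℓ0 s i ≤ ℓ0 + p * s := by
        unfold ell
        have := Nat.mul_le_mul_right s hi2.le
        omega
      generalize hJ : v * (2 * h) / i = J at *
      generalize dd h ℓ0 s i = D at *
      generalize ell h ℓ0 s i = ℓ at *
      generalize org h p q0 ℓ D J = o at *
      have hh' : (0 : ℤ) < 2 * h := by exact_mod_cast (by omega : 0 < 2 * h)
      have l1 : (J : ℤ) * ℓ ≤ v := by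
        have q1 : (J : ℤ) * i ≤ v * (2 * h) := by exact_mod_cast a1
        have q2 : (i : ℤ) = 2 * h * ℓ + D := by exact_mod_cast hlen
        have q3 : (0 : ℤ) ≤ J * D := by positivity
        have : (2 * h : ℤ) * (J * ℓ) ≤ (2 * h) * v := by
          rw [q2] at q1; nlinarith
        exact le_of_mul_le_mul_left this hh'
      have l2 : (v : ℤ) < (J + 1) * ℓ + D := by
        have q1 : (v : ℤ) * (2 * h) < (J + 1) * i := by exact_mod_cast a2
        have q2 : (i : ℤ) = 2 * h * ℓ + D := by exact_mod_cast hlen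
        have q4 : (J : ℤ) + 1 ≤ 2 * h := by exact_mod_cast a3
        have q3 : ((J : ℤ) + 1) * D ≤ 2 * h * D := mul_le_mul_of_nonneg_right q4 (by positivity)
        have : (2 * h : ℤ) * v < (2 * h) * ((J + 1) * ℓ + D) := by
          rw [q2] at q1; nlinarith
        exact lt_of_mul_lt_mul_left this hh'.le
      have o1' : (J : ℤ) * ℓ ≤ o := by exact_mod_cast o1
      have o2' : (o : ℤ) ≤ J * ℓ + D := by exact_mod_cast o2
      have hD' : (D : ℤ) < 2 * h * s := by exact_mod_cast hD
      have hℓ' : (ℓ : ℤ) ≤ ℓ0 + p * s := by exact_mod_cast hℓ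
      constructor
      · linarith
      · nlinarith
  · intro i hi i' hi' u hu v hv u' hu' v' hv' e1 e2
    have hi0 : 0 < i := by omega
    have hJ := (arc_bounds (t := 2 * h) hi0 hu).2.2 (by omega)
    have hK := (arc_bounds (t := 2 * h) hi0 hv).2.2 (by omega)
    by_cases hc : ∃ r ≤ h, (v * (2 * h) / i) % (2 * h) = (u * (2 * h) / i + r) % (2 * h)
    · obtain ⟨r, hr, hrK⟩ := hc
      exact lab_cons hp hp3 hh hq hs hsw hi hi' hu hv hu' hv' e1 e2 hr hrK
    · have hc2 : ∃ r ≤ h, (u * (2 * h) / i) % (2 * h) = (v * (2 * h) / i + r) % (2 * h) := by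
        generalize u * (2 * h) / i = J at *
        generalize v * (2 * h) / i = K at *
        push Not at hc
        rcases le_total J K with hle | hle
        · rcases Nat.lt_or_ge h (K - J) with hlt | hge
          · refine ⟨J + 2 * h - K, by omega, ?_⟩
            rw [show K + (J + 2 * h - K) = J + 2 * h by omega, Nat.add_mod_right]
          · exact absurd (by rw [show J + (K - J) = K by omega]) (hc (K - J) hge)
        · rcases Nat.lt_or_ge h (J - K) with hlt | hge
          · exact absurd (by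
              rw [show J + (K + 2 * h - J) = K + 2 * h by omega, Nat.add_mod_right])
              (hc (K + 2 * h - J) (by omega))
          · exact ⟨J - K, hge, by rw [show K + (J - K) = J by omega]⟩
      obtain ⟨r, hr, hrK⟩ := hc2
      rw [cd_comm i u v, cd_comm i' u' v']
      exact lab_cons hp hp3 hh hq hs hsw hi hi' hv hu hv' hu' e2 e1 hr hrK

end Served

end Pool.Agent.Hhelper79.CycleLabel
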