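import Mathlib
import Pool.Agent.Hhelper79.CycleLabelServed

namespace Pool.Agent.Hhelper79.CycleLabel

open Finset

/-- functions with two coordinates in the same block -/
theorem card_coincide (T b p : ℕ) (hp : 0 < p) (m m' : Fin T) (hne : m ≠ m') :
    ((Finset.univ : Finset (Fin T → Fin b)).filter
      (fun f => (f m).val / p = (f m').val / p)).card ≤ b ^ (T - 1) * p := by
  classical
  let tgt : Finset (Fin T → Fin b) := Fintype.piFinset
    (fun j => if j = m' then (Finset.univ.filter (fun x : Fin b => x.val < p)) else Finset.univ)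
  have hcard : tgt.card ≤ b ^ (T - 1) * p := by
    rw [Fintype.card_piFinset]
    rw [← Finset.mul_prod_erase Finset.univ _ (Finset.mem_univ m')]
    have h1 : ∀ j ∈ Finset.univ.erase m', (if j = m' then
        (Finset.univ.filter (fun x : Fin b => x.val < p)) else Finset.univ).card = b := by
      intro j hj
      rw [if_neg (Finset.ne_of_mem_erase hj)]; simp
    rw [Finset.prod_congr rfl h1, Finset.prod_const, Finset.card_erase_of_mem (Finset.mem_univ _),
      Finset.card_univ, Fintype.card_fin, if_pos rfl, Nat.mul_comm]
    apply Nat.mul_le_mul_left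
    calc (Finset.univ.filter (fun x : Fin b => x.val < p)).card
        ≤ (Finset.range p).card := by
          apply Finset.card_le_card_of_injOn (fun x => x.val)
          · intro x hx
            simp only [Finset.coe_filter, Finset.mem_univ, true_and, Set.mem_ofPred_eq] at hx
            simp only [Finset.coe_range, Set.mem_Iio]
            exact hx
          · intro x _ y _ hxy
            exact Fin.ext hxy
      _ = p := by simp
  refine le_trans ?_ hcard
  apply Finset.card_le_card_of_injOn (fun f => Function.update f m'
    ⟨(f m').val % p, lt_of_le_of_lt (Nat.mod_le _ _) (f m').isLt⟩)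
  · intro f hf
    simp only [tgt, Finset.mem_coe, Fintype.mem_piFinset]
    intro j
    by_cases hj : j = m'
    · subst hj
      simp only [if_true, Function.update_self, Finset.mem_filter, Finset.mem_univ, true_and]
      exact Nat.mod_lt _ hp
    · simp [hj]
  · intro f hf g hg hfg
    simp only [Finset.coe_filter, Finset.mem_univ, true_and, Set.mem_ofPred_eq] at hf hg
    simp only at hfg
    have hother : ∀ j, j ≠ m' → f j = g j := by
      intro j hj
      have := congrFun hfg j
      simpa [Function.update_of_ne hj] using this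
    have hm : (f m').val % p = (g m').val % p := by
      have := congrFun hfg m'
      simp only [Function.update_self, Fin.mk.injEq] at this
      exact this
    funext j
    by_cases hj : j = m'
    · subst hj
      apply Fin.ext
      rw [← Nat.div_add_mod (f j).val p, ← Nat.div_add_mod (g j).val p, hm, ← hf, ← hg,
        hother m hne]
    · exact hother j hj

section Bad

variable {h p q0 : ℕ}

/-- number of values with a coincidence between two given digits -/
theorem card_dig_coincide (T q0 b p : ℕ) (hp : 0 < p) (hq : 0 < q0) (hb : 0 < b)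
    (m m' : ℕ) (hm : m < T) (hm' : m' < T) (hne : m ≠ m') :
    ((Finset.range (q0 * b ^ T)).filter
      (fun D => dig q0 b D m / p = dig q0 b D m' / p)).card ≤ q0 * (b ^ (T - 1) * p) := by
  classical
  have key : ∀ D ∈ Finset.range (q0 * b ^ T), D / q0 < b ^ T := by
    intro D hD
    rw [Finset.mem_range] at hD
    exact Nat.div_lt_of_lt_mul hD
  let F : ℕ → ℕ × (Fin T → Fin b) := fun D => (D % q0, fun j => ⟨D / q0 / b ^ j.val % b,
    Nat.mod_lt _ hb⟩)
  calc ((Finset.range (q0 * b ^ T)).filter
      (fun D => dig q0 b D m / p = dig q0 b D m' / p)).card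
      ≤ (Finset.range q0 ×ˢ ((Finset.univ : Finset (Fin T → Fin b)).filter
        (fun f => (f ⟨m, hm⟩).val / p = (f ⟨m', hm'⟩).val / p))).card := by
        apply Finset.card_le_card_of_injOn F
        · intro D hD
          simp only [Finset.coe_filter, Set.mem_ofPred_eq] at hD
          simp only [F, Finset.coe_product, Set.mem_prod, Finset.coe_range, Set.mem_Iio,
            Finset.coe_filter, Finset.mem_univ, true_and, Set.mem_ofPred_eq]
          exact ⟨Nat.mod_lt _ hq, hD.2⟩
        · intro D hD D' hD' hF
          simp only [Finset.coe_filter, Set.mem_ofPred_eq, Finset.mem_range] at hD hD'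
          simp only [F, Prod.mk.injEq] at hF
          have h2 := mod_eq_of_dig (q0 := q0) (b := b) (D := D) (D' := D') T hF.1 (by
            intro j hj
            have := congrFun hF.2 ⟨j, hj⟩
            simp only [Fin.mk.injEq] at this
            exact this)
          rwa [Nat.mod_eq_of_lt hD.1, Nat.mod_eq_of_lt hD'.1] at h2
    _ = q0 * _ := by rw [Finset.card_product, Finset.card_range]
    _ ≤ q0 * (b ^ (T - 1) * p) := by
        apply Nat.mul_le_mul_left
        apply card_coincide T b p hp
        simpa using hne

open Classical in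
theorem card_bad (hp : 0 < p) (hh : 0 < h) (hq : 0 < q0) :
    ((Finset.range (q0 * (h * q0 * p) ^ (2 * h - 1))).filter
      (fun D => ¬ TagInj h p q0 D)).card ≤
      (2 * h) * (2 * h) * (q0 * ((h * q0 * p) ^ (2 * h - 1 - 1) * p)) := by
  have hb : 0 < h * q0 * p := by positivity
  set T := 2 * h - 1 with hT
  have hsub : (Finset.range (q0 * (h * q0 * p) ^ T)).filter (fun D => ¬ TagInj h p q0 D) ⊆
      ((Finset.range T ×ˢ Finset.range T).filter (fun a => a.1 ≠ a.2)).biUnion (fun a =>
        (Finset.range (q0 * (h * q0 * p) ^ T)).filter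
          (fun D => dig q0 (h * q0 * p) D a.1 / p = dig q0 (h * q0 * p) D a.2 / p)) := by
    intro D hD
    rw [Finset.mem_filter] at hD
    obtain ⟨hD1, hD2⟩ := hD
    unfold TagInj at hD2
    push Not at hD2
    obtain ⟨x, hx, y, hy, hxy, hne⟩ := hD2
    have hx0 : x ≠ 0 := by
      intro h0
      subst h0
      have := (tag_marker hp hh hq D 0).mpr (by simp)
      rw [hxy, tag_marker hp hh hq, Nat.mod_eq_of_lt hy] at this
      omega
    have hy0 : y ≠ 0 := by
      intro h0
      subst h0
      have := (tag_marker hp hh hq D 0).mpr (by simp)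
      rw [← hxy, tag_marker hp hh hq, Nat.mod_eq_of_lt hx] at this
      omega
    unfold tag at hxy
    rw [Nat.mod_eq_of_lt hx, Nat.mod_eq_of_lt hy, if_neg hx0, if_neg hy0] at hxy
    rw [Finset.mem_biUnion]
    refine ⟨(x - 1, y - 1), ?_, ?_⟩
    · simp only [Finset.mem_filter, Finset.mem_product, Finset.mem_range]
      omega
    · rw [Finset.mem_filter]
      exact ⟨hD1, hxy⟩
  calc _ ≤ _ := Finset.card_le_card hsub
    _ ≤ ((Finset.range T ×ˢ Finset.range T).filter (fun a => a.1 ≠ a.2)).card *
        (q0 * ((h * q0 * p) ^ (T - 1) * p)) := by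
        apply Finset.card_biUnion_le_card_mul
        intro a ha
        simp only [Finset.mem_filter, Finset.mem_product, Finset.mem_range] at ha
        exact card_dig_coincide T q0 _ p hp hq hb a.1 a.2 ha.1.1 ha.1.2 ha.2
    _ ≤ (2 * h) * (2 * h) * (q0 * ((h * q0 * p) ^ (T - 1) * p)) := by
        apply Nat.mul_le_mul_right
        refine le_trans (Finset.card_filter_le _ _) ?_
        rw [Finset.card_product, Finset.card_range]
        exact Nat.mul_le_mul (by omega) (by omega)

/-- number of lengths not served -/
theorem card_not_served (hp : 0 < p) (hh : 0 < h) (hq : 0 < q0) (N ℓ0 s : ℕ) (hs : 0 < s)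
    (hℓ : 2 * h * ℓ0 ≤ N) (hN : 2 * N ≤ 2 * h * ℓ0 + p * (2 * h * s))
    (hsw : 2 * h * s ≤ q0 * (h * q0 * p) ^ (2 * h - 1)) :
    ∃ U : Finset ℕ, (∀ i ∈ U, i ≤ 2 * N) ∧ Set.Ico N (2 * N) ⊆ served h p q0 ℓ0 s ∪ U ∧
      U.card ≤ p * ((2 * h) * (2 * h) * (q0 * ((h * q0 * p) ^ (2 * h - 1 - 1) * p))) := by
  classical
  have hkap : ∀ i, i < 2 * N → kap h ℓ0 s i < p := by
    intro i hi
    unfold kap
    apply Nat.div_lt_of_lt_mul
    rw [Nat.mul_comm (2 * h * s) p]
    have : 0 < p * (2 * h * s) := by positivity
    omega
  refine ⟨(Finset.Ico N (2 * N)).filter (fun i => ¬ TagInj h p q0 (dd h ℓ0 s i)), ?_, ?_, ?_⟩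
  · intro i hi
    simp only [Finset.mem_filter, Finset.mem_Ico] at hi
    omega
  · intro i hi
    by_cases hc : TagInj h p q0 (dd h ℓ0 s i)
    · left
      exact ⟨hℓ.trans hi.1, hkap i hi.2, hc⟩
    · right
      simp only [Finset.coe_filter, Set.mem_ofPred_eq, Finset.mem_Ico]
      exact ⟨hi, hc⟩
  · calc _ ≤ (Finset.range p ×ˢ ((Finset.range (q0 * (h * q0 * p) ^ (2 * h - 1))).filter
            (fun D => ¬ TagInj h p q0 D))).card := by
          apply Finset.card_le_card_of_injOn (fun i => (kap h ℓ0 s i, dd h ℓ0 s i))
          · intro i hi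
            simp only [Finset.coe_filter, Set.mem_ofPred_eq, Finset.mem_Ico] at hi
            simp only [Finset.coe_product, Set.mem_prod, Finset.coe_range, Set.mem_Iio,
              Finset.coe_filter, Finset.mem_range, Set.mem_ofPred_eq]
            exact ⟨hkap i hi.1.2, lt_of_lt_of_le (Nat.mod_lt _ (by positivity)) hsw, hi.2⟩
          · intro i hi j hj hij
            simp only [Finset.coe_filter, Set.mem_ofPred_eq, Finset.mem_Ico] at hi hj
            simp only [Prod.mk.injEq] at hij
            have e1 := length_eq (h := h) (s := s) (hℓ.trans hi.1.1)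
            have e2 := length_eq (h := h) (s := s) (hℓ.trans hj.1.1)
            have e3 : ell h ℓ0 s i = ell h ℓ0 s j := by unfold ell; rw [hij.1]
            rw [e1, e2, e3, hij.2]
      _ ≤ _ := by
          rw [Finset.card_product, Finset.card_range]
          exact Nat.mul_le_mul_left _ (card_bad hp hh hq)

end Bad

end Pool.Agent.Hhelper79.CycleLabel
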