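import Mathlib
import Pool.Agent.Hhelper79.CycleLabelCount

namespace Pool.Agent.Hhelper79.CycleLabel

open Finset

theorem pow_succ_le_three (a k : ℕ) (hk : k ≤ a) (ha : 0 < a) :
    ((a : ℝ) + 1) ^ k ≤ 3 * (a : ℝ) ^ k := by
  have ha' : (0 : ℝ) < a := by exact_mod_cast ha
  have h1 : ((a : ℝ) + 1) = a * (1 + 1 / a) := by field_simp
  rw [h1, mul_pow, mul_comm]
  apply mul_le_mul_of_nonneg_right _ (by positivity)
  have h2 : (1 + 1 / (a : ℝ)) ≤ Real.exp (1 / a) := by
    rw [add_comm]; exact Real.add_one_le_exp _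
  calc (1 + 1 / (a : ℝ)) ^ k ≤ (Real.exp (1 / a)) ^ k :=
        pow_le_pow_left₀ (by positivity) h2 k
    _ = Real.exp (k * (1 / a)) := by rw [← Real.exp_nat_mul]
    _ ≤ Real.exp 1 := by
        apply Real.exp_le_exp.mpr
        rw [mul_one_div, div_le_one ha']
        exact_mod_cast hk
    _ ≤ 3 := by linarith [Real.exp_one_lt_d9]

/-- number of values of the data -/
def Wf (h p q : ℕ) : ℕ := q * (h * q * p) ^ (2 * h - 1)

theorem Wf_eq {h p q : ℕ} (hh : 0 < h) : Wf h p q = (h * p) ^ (2 * h - 1) * q ^ (2 * h) := by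
  unfold Wf
  have h1 : h * q * p = (h * p) * q := by ring
  obtain ⟨t, ht⟩ : ∃ t, 2 * h = t + 1 := ⟨2 * h - 1, by omega⟩
  rw [h1, mul_pow, ht, Nat.add_sub_cancel, pow_succ]; ring

theorem Wf_mono {h p : ℕ} : Monotone (Wf h p) := by
  intro a b hab
  unfold Wf
  gcongr

theorem Wf_ge {h p q : ℕ} (hh : 0 < h) (hp : 0 < p) : q ≤ Wf h p q := by
  unfold Wf
  rcases Nat.eq_zero_or_pos q with hq | hq
  · subst hq; simp
  · exact Nat.le_mul_of_pos_right q (by positivity)

theorem Wf_succ {h p q : ℕ} (hh : 0 < h) (hq : 2 * h ≤ q) : Wf h p (q + 1) ≤ 3 * Wf h p q := by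
  rw [Wf_eq hh, Wf_eq hh]
  have h1 := pow_succ_le_three q (2 * h) hq (by omega)
  have h2 : (q + 1) ^ (2 * h) ≤ 3 * q ^ (2 * h) := by exact_mod_cast h1
  calc (h * p) ^ (2 * h - 1) * (q + 1) ^ (2 * h) ≤ (h * p) ^ (2 * h - 1) * (3 * q ^ (2 * h)) :=
        Nat.mul_le_mul_left _ h2
    _ = _ := by ring

theorem exists_q0 {h p : ℕ} (hh : 0 < h) (hp : 0 < p) (M X : ℕ) (hM : 2 * h ≤ M)
    (hX : Wf h p (M + 1) < X) : ∃ q0, M < q0 ∧ X ≤ Wf h p q0 ∧ Wf h p q0 ≤ 3 * X := by
  classical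
  have hex : ∃ q, X ≤ Wf h p q := ⟨X, Wf_ge hh hp⟩
  have h1 := Nat.find_spec hex
  have h2 : M + 1 < Nat.find hex := by
    by_contra hc
    push Not at hc
    exact absurd (h1.trans (Wf_mono hc)) (by omega)
  obtain ⟨q, hq⟩ : ∃ q, Nat.find hex = q + 1 := ⟨Nat.find hex - 1, by omega⟩
  have h3 : ¬ X ≤ Wf h p q := Nat.find_min hex (by omega)
  refine ⟨Nat.find hex, by omega, h1, ?_⟩
  rw [hq]
  have := Wf_succ (p := p) hh (show 2 * h ≤ q by omega)
  omega

theorem block (ε : ℝ) (hε : 0 < ε) : ∃ N0 : ℕ, ∀ N ≥ N0, ∃ M : ℕ,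
    Good (Set.Ico N (2 * N)) M ∧ (M : ℝ) ≤ ε * (N * √N) := by
  -- parameters
  obtain ⟨h, hh1⟩ := exists_nat_gt (576 / ε ^ 2)
  have hh0 : (0 : ℝ) < h := lt_trans (by positivity) hh1
  have hh : 0 < h := by exact_mod_cast hh0
  obtain ⟨p, hp3, hp⟩ := Nat.exists_infinite_primes (3 * h + 1)
  have hp0 : 0 < p := hp.pos
  obtain ⟨M0, hM0⟩ := exists_nat_gt (24 * h * 256 / ε ^ 2)
  set Mm : ℕ := max M0 (2 * h) with hMm
  obtain ⟨Nε, hNε⟩ := exists_nat_gt (256 / ε ^ 2)
  refine ⟨max (max (p * Wf h p (Mm + 1) + 1) (108 * h * p)) (max (3 * h * (2 * p + 8 * h)) Nε),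
    ?_⟩
  intro N hN
  have hN1 : p * Wf h p (Mm + 1) + 1 ≤ N :=
    le_trans (le_trans (le_max_left _ _) (le_max_left _ _)) hN
  have hN2 : 108 * h * p ≤ N := le_trans (le_trans (le_max_right _ _) (le_max_left _ _)) hN
  have hN3 : 3 * h * (2 * p + 8 * h) ≤ N :=
    le_trans (le_trans (le_max_left _ _) (le_max_right _ _)) hN
  have hN4 : Nε ≤ N := le_trans (le_trans (le_max_right _ _) (le_max_right _ _)) hN
  have hNpos : 0 < N := by omega
  -- the scheme
  set s : ℕ := N / (2 * h * p) + 2 with hs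
  have hdiv := Nat.div_add_mod N (2 * h * p)
  have hmod := Nat.mod_lt N (show 0 < 2 * h * p by positivity)
  have hs0 : 0 < s := by rw [hs]; exact Nat.succ_pos _
  -- p * (2 h s) > N + 2 h p
  have hps : N + 2 * h * p < p * (2 * h * s) := by
    have : p * (2 * h * s) = 2 * h * p * (N / (2 * h * p)) + 2 * (2 * h * p) := by rw [hs]; ring
    omega
  have hps2 : p * (2 * h * s) ≤ N + 4 * h * p := by
    have : p * (2 * h * s) = 2 * h * p * (N / (2 * h * p)) + 4 * h * p := by rw [hs]; ring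
    omega
  have hX : Wf h p (Mm + 1) < 2 * h * s := by
    by_contra hc
    push Not at hc
    have := Nat.mul_le_mul_left p hc
    omega
  obtain ⟨q0, hq1, hq2, hq3⟩ := exists_q0 hh hp0 Mm (2 * h * s) (le_max_right _ _) hX
  have hq0 : 0 < q0 := by omega
  have hdiv2 := Nat.div_add_mod N (2 * h)
  have hmod2 := Nat.mod_lt N (show 0 < 2 * h by positivity)
  have hgood := good_served hp (by omega) hh hq0 (N / (2 * h)) hs0 hq2
  obtain ⟨U, hU1, hU2, hU3⟩ := card_not_served hp0 hh hq0 N (N / (2 * h)) s hs0 (by omega)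
    (by
      have : 2 * h ≤ 2 * h * p := Nat.le_mul_of_pos_right _ hp0
      omega) hq2
  set k : ℕ := Nat.sqrt U.card + 1 with hk
  have hkU : U.card ≤ k * k := by
    have := Nat.lt_succ_sqrt U.card
    simp only [Nat.succ_eq_add_one] at this
    exact this.le
  have hgood2 := good_two_chain U N k hU1 hkU
  refine ⟨_, (hgood.union hgood2).mono hU2 le_rfl, ?_⟩
  -- estimates
  have hNr : (0 : ℝ) < N := by exact_mod_cast hNpos
  have hp0r : (0 : ℝ) < p := by exact_mod_cast hp0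
  have hq0r : (0 : ℝ) < q0 := by exact_mod_cast hq0
  have hps2r : (p : ℝ) * (2 * h * s) ≤ N + 4 * h * p := by exact_mod_cast hps2
  have hN2r : (108 : ℝ) * h * p ≤ N := by exact_mod_cast hN2
  have hN3r : (3 : ℝ) * h * (2 * p + 8 * h) ≤ N := by exact_mod_cast hN3
  have hp3r : (3 : ℝ) * h ≤ p := by
    have : 3 * h ≤ p := by omega
    exact_mod_cast this
  have hhp : (0 : ℝ) < h * p := by positivity
  -- number of windows
  have hwin : ((((h + 1) * q0 * p) ^ h : ℕ) : ℝ) ≤ 6 * √(h * N) := by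
    have h1 : (((((h + 1) * q0 * p) ^ h : ℕ) : ℝ)) ^ 2 ≤ (6 * √(h * N)) ^ 2 := by
      rw [mul_pow 6, Real.sq_sqrt (by positivity)]
      have h2 : ((((((h + 1) * q0 * p) ^ h : ℕ) : ℝ)) ^ 2) =
          (((h : ℝ) + 1) ^ h) ^ 2 * ((q0 : ℝ) * p) ^ (2 * h) := by
        push_cast
        rw [mul_assoc, mul_pow, mul_pow, ← pow_mul ((q0 : ℝ) * p), mul_comm h 2]
      have h3 : ((h : ℝ) + 1) ^ h ≤ 3 * (h : ℝ) ^ h := pow_succ_le_three h h le_rfl hh
      have h4 : (((h : ℝ) + 1) ^ h) ^ 2 ≤ 9 * (h : ℝ) ^ (2 * h) := by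
        calc (((h : ℝ) + 1) ^ h) ^ 2 ≤ (3 * (h : ℝ) ^ h) ^ 2 :=
              pow_le_pow_left₀ (by positivity) h3 2
          _ = 9 * (h : ℝ) ^ (2 * h) := by rw [mul_pow, ← pow_mul, mul_comm h 2]; norm_num
      have h5 : (h : ℝ) ^ (2 * h) * ((q0 : ℝ) * p) ^ (2 * h) = h * p * (Wf h p q0 : ℝ) := by
        unfold Wf
        push_cast
        obtain ⟨t, ht⟩ : ∃ t, 2 * h = t + 1 := ⟨2 * h - 1, by omega⟩
        rw [ht, Nat.add_sub_cancel, ← mul_pow, show (h : ℝ) * (q0 * p) = h * q0 * p by ring,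
          pow_succ]
        ring
      have h6 : (Wf h p q0 : ℝ) ≤ 3 * (2 * h * s) := by exact_mod_cast hq3
      rw [h2]
      calc (((h : ℝ) + 1) ^ h) ^ 2 * ((q0 : ℝ) * p) ^ (2 * h)
          ≤ 9 * (h : ℝ) ^ (2 * h) * ((q0 : ℝ) * p) ^ (2 * h) :=
            mul_le_mul_of_nonneg_right h4 (by positivity)
        _ = 9 * (h * p * (Wf h p q0 : ℝ)) := by rw [mul_assoc, h5]
        _ ≤ 9 * (h * p * (3 * (2 * h * s))) := by
            have := mul_le_mul_of_nonneg_left h6 hhp.le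
            linarith
        _ = 27 * h * (p * (2 * h * s)) := by ring
        _ ≤ 27 * h * (N + 4 * h * p) := by
            apply mul_le_mul_of_nonneg_left hps2r (by positivity)
        _ ≤ 27 * h * (N + N / 27) := by
            apply mul_le_mul_of_nonneg_left _ (by positivity)
            linarith
        _ ≤ 6 ^ 2 * (h * N) := by
            have : (0 : ℝ) < h * N := by positivity
            nlinarith
    exact (sq_le_sq₀ (by positivity) (by positivity)).mp h1
  have hrange : (((N / (2 * h) + p * s + 4 * h * s : ℕ)) : ℝ) ≤ 2 * N / h := by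
    push_cast
    have a1 : (((N / (2 * h) : ℕ)) : ℝ) ≤ N / (2 * h) := by
      have := @Nat.cast_div_le ℝ _ _ _ N (2 * h)
      push_cast at this
      exact this
    have a2 : (p : ℝ) * s ≤ (N + 4 * h * p) / (2 * h) := by
      rw [le_div_iff₀ (by positivity)]
      linarith
    have a3 : (4 : ℝ) * h * s ≤ 2 * (N + 4 * h * p) / (3 * h) := by
      rw [le_div_iff₀ (by positivity)]
      have : (4 : ℝ) * h * s * (3 * h) ≤ 4 * h * s * p :=
        mul_le_mul_of_nonneg_left hp3r (by positivity)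
      nlinarith
    have a4 : (N : ℝ) / (2 * h) + (N + 4 * h * p) / (2 * h) + 2 * (N + 4 * h * p) / (3 * h) ≤
        2 * N / h := by
      rw [div_add_div _ _ (by positivity) (by positivity),
        div_add_div _ _ (by positivity) (by positivity), div_le_div_iff₀ (by positivity) hh0]
      have : (0:ℝ) < h ^ 2 := by positivity
      nlinarith [mul_pos hh0 hh0, mul_pos (mul_pos hh0 hh0) hh0]
    linarith
  have hmain : (((((h + 1) * q0 * p) ^ h * (N / (2 * h) + p * s + 4 * h * s) : ℕ)) : ℝ) ≤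
      ε / 2 * (N * √N) := by
    rw [Nat.cast_mul]
    have hsq : 24 / ε ≤ √h := by
      apply Real.le_sqrt_of_sq_le
      rw [div_pow]; norm_num; exact hh1.le
    have hsq2 : √(h : ℝ) * √h = h := Real.mul_self_sqrt hh0.le
    have hsq0 : 0 < √(h : ℝ) := Real.sqrt_pos.mpr hh0
    calc _ ≤ (6 * √(h * N)) * (2 * N / h) :=
          mul_le_mul hwin hrange (by positivity) (by positivity)
      _ = 12 * (N * √N) / √h := by
          rw [Real.sqrt_mul hh0.le]
          rw [eq_div_iff hsq0.ne']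
          field_simp
          rw [Real.sq_sqrt hh0.le]
          ring
      _ ≤ ε / 2 * (N * √N) := by
          rw [div_le_iff₀ hsq0]
          have : 24 ≤ ε * √h := by
            rw [div_le_iff₀ hε] at hsq; linarith
          have h0 : 0 ≤ N * √(N : ℝ) := by positivity
          nlinarith
  have hU4 : (U.card : ℝ) ≤ (ε / 16) ^ 2 * N := by
    have b1 : U.card * (h * q0) ≤ p * ((2 * h) * (2 * h)) * Wf h p q0 := by
      calc U.card * (h * q0)
          ≤ p * ((2 * h) * (2 * h) * (q0 * ((h * q0 * p) ^ (2 * h - 1 - 1) * p))) * (h * q0) :=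
            Nat.mul_le_mul_right _ hU3
        _ = p * ((2 * h) * (2 * h)) * Wf h p q0 := by
            unfold Wf
            obtain ⟨t, ht⟩ : ∃ t, 2 * h - 1 = t + 1 := ⟨2 * h - 2, by omega⟩
            rw [ht, Nat.add_sub_cancel, pow_succ]; ring
    have b2 : (U.card : ℝ) * (h * q0) ≤ 24 * h ^ 2 * N := by
      have b3 : (U.card : ℝ) * (h * q0) ≤ p * ((2 * h) * (2 * h)) * (Wf h p q0 : ℝ) := by
        exact_mod_cast b1
      have h6 : (Wf h p q0 : ℝ) ≤ 3 * (2 * h * s) := by exact_mod_cast hq3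
      calc (U.card : ℝ) * (h * q0) ≤ p * ((2 * h) * (2 * h)) * (Wf h p q0 : ℝ) := b3
        _ ≤ p * ((2 * h) * (2 * h)) * (3 * (2 * h * s)) :=
            mul_le_mul_of_nonneg_left h6 (by positivity)
        _ = 12 * h ^ 2 * (p * (2 * h * s)) := by ring
        _ ≤ 12 * h ^ 2 * (N + 4 * h * p) := mul_le_mul_of_nonneg_left hps2r (by positivity)
        _ ≤ 12 * h ^ 2 * (N + N) := by
            apply mul_le_mul_of_nonneg_left _ (by positivity)
            linarith
        _ = 24 * h ^ 2 * N := by ring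
    have b4 : (U.card : ℝ) * q0 ≤ 24 * h * N := by
      have : (U.card : ℝ) * q0 * h ≤ 24 * h * N * h := by nlinarith
      exact le_of_mul_le_mul_right this hh0
    have b5 : (M0 : ℝ) ≤ q0 := by
      have : M0 ≤ q0 := le_trans (le_max_left _ _) hq1.le
      exact_mod_cast this
    have b6 : 24 * (h : ℝ) ≤ (ε / 16) ^ 2 * q0 := by
      have : 24 * (h : ℝ) * 256 / ε ^ 2 ≤ q0 := hM0.le.trans b5
      rw [div_le_iff₀ (by positivity)] at this
      rw [div_pow]
      linarith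
    have b7 : (U.card : ℝ) * q0 ≤ (ε / 16) ^ 2 * N * q0 := by
      calc (U.card : ℝ) * q0 ≤ 24 * h * N := b4
        _ ≤ ((ε / 16) ^ 2 * q0) * N := mul_le_mul_of_nonneg_right b6 hNr.le
        _ = _ := by ring
    exact le_of_mul_le_mul_right b7 hq0r
  have hsN : 16 / ε ≤ √N := by
    apply Real.le_sqrt_of_sq_le
    rw [div_pow]; norm_num
    have : (Nε : ℝ) ≤ N := by exact_mod_cast hN4
    linarith
  have hk2 : (k : ℝ) ≤ ε / 16 * √N + 1 := by
    rw [hk]; push_cast
    have c1 : (Nat.sqrt U.card : ℝ) ≤ √(U.card : ℝ) := Real.nat_sqrt_le_real_sqrt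
    have c2 : √(U.card : ℝ) ≤ ε / 16 * √N := by
      apply Real.sqrt_le_iff.mpr
      constructor
      · positivity
      · rw [mul_pow, Real.sq_sqrt hNr.le]; exact hU4
    linarith
  have hfb : ((2 * k * (N + 1) : ℕ) : ℝ) ≤ ε / 2 * (N * √N) := by
    push_cast
    have h1N : (1 : ℝ) ≤ N := by exact_mod_cast hNpos
    have d1 : (2 : ℝ) * k * (N + 1) ≤ 2 * (ε / 16 * √N + 1) * (N + N) := by
      apply mul_le_mul _ (by linarith) (by positivity) (by positivity)
      linarith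
    have d2 : 16 ≤ ε * √N := by
      rw [div_le_iff₀ hε] at hsN; linarith
    have d3 : 2 * (ε / 16 * √N + 1) * ((N : ℝ) + N) = ε / 4 * (N * √N) + 4 * N := by ring
    have d4 : 4 * (N : ℝ) ≤ ε / 4 * (N * √N) := by nlinarith
    linarith
  rw [Nat.cast_add]
  linarith

/-- all cycles of length less than `n` -/
theorem total (ε : ℝ) (hε : 0 < ε) : ∃ C : ℕ, ∀ n : ℕ, ∃ M : ℕ,
    Good {i | i < n} M ∧ (M : ℝ) ≤ ε * (n * √n) + C := by
  obtain ⟨N0, hN0⟩ := block (ε / 2) (by positivity)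
  refine ⟨(2 * N0 + 3) * (2 * N0 + 3), ?_⟩
  intro n
  induction n using Nat.strong_induction_on with
  | _ n ih =>
    rcases Nat.lt_or_ge n (2 * N0 + 3) with hlt | hge
    · refine ⟨n * n, good_trivial n, ?_⟩
      have : n * n ≤ (2 * N0 + 3) * (2 * N0 + 3) := Nat.mul_le_mul hlt.le hlt.le
      have h2 : ((n * n : ℕ) : ℝ) ≤ (((2 * N0 + 3) * (2 * N0 + 3) : ℕ) : ℝ) := by exact_mod_cast this
      have h3 : 0 ≤ ε * (n * √n) := by positivity
      linarith
    · set N := (n + 1) / 2 with hN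
      obtain ⟨M1, g1, b1⟩ := ih N (by omega)
      obtain ⟨M2, g2, b2⟩ := hN0 N (by omega)
      refine ⟨M1 + M2, (g1.union g2).mono ?_ le_rfl, ?_⟩
      · intro i hi
        simp only [Set.mem_ofPred_eq, Set.mem_union, Set.mem_Ico] at hi ⊢
        omega
      · push_cast at b1 ⊢
        have e1 : (N : ℝ) ≤ 2 / 3 * n := by
          have : 3 * N ≤ 2 * n := by omega
          have h2 : (3 : ℝ) * N ≤ 2 * n := by exact_mod_cast this
          linarith
        have e2 : √(N : ℝ) ≤ √(2 / 3) * √n := by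
          rw [← Real.sqrt_mul (by norm_num)]
          exact Real.sqrt_le_sqrt e1
        have e3 : √(2 / 3 : ℝ) ≤ 0.82 := by
          apply Real.sqrt_le_iff.mpr
          norm_num
        have e4 : √(N : ℝ) ≤ 0.82 * √n :=
          e2.trans (mul_le_mul_of_nonneg_right e3 (Real.sqrt_nonneg _))
        have e5 : (N : ℝ) * √N ≤ (2 / 3 * n) * (0.82 * √n) :=
          mul_le_mul e1 e4 (Real.sqrt_nonneg _) (by positivity)
        have e6 : 0 ≤ (n : ℝ) * √n := by positivity
        nlinarith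

end Pool.Agent.Hhelper79.CycleLabel
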